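import Pool.Agent.Lib_helper95.SCDCCol

/-!
# Circuits of cubic graphs that are members of 5-cycle double covers
-/

namespace Pool.Agent.Results.MP_91c0b7_co.ColourableComplement

open Pool.Agent.SCDC

/-- Both ends of the edge `e` lie outside `C`, i.e. `e` is an edge of `G - V(C)`. -/
def Outside {V E : Type} [DecidableEq V] (G : MGraph V E) (C : Finset E) (e : E) : Prop :=
  ∀ u ∈ G.ends e, G.deg C u = 0

/-- `C` is a member of a 5-cycle double cover: there are four edge sets `A 0, …, A 3`, all of whose
degrees are `0` or `2`, such that every edge lies in exactly two of the five sets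
`C, A 0, A 1, A 2, A 3`. -/
def InFiveCover {V E : Type} [DecidableEq V] [DecidableEq E] (G : MGraph V E) (C : Finset E) : Prop :=
  ∃ A : Fin 4 → Finset E, (∀ i u, G.deg (A i) u = 0 ∨ G.deg (A i) u = 2) ∧
    ∀ f, (if f ∈ C then 1 else 0) + ∑ i, (if f ∈ A i then 1 else 0) = 2

/-- `G - V(C)` has a proper edge colouring with three colours. -/
def Colourable {V E : Type} [DecidableEq V] (G : MGraph V E) (C : Finset E) : Prop :=
  ∃ φ : E → Fin 3, ∀ e f u, Outside G C e → Outside G C f → e ≠ f → u ∈ G.ends e → u ∈ G.ends f →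
    φ e ≠ φ f

/-- Let `C` be a circuit, of any length, of a loopless cubic graph `G`. -/
theorem result {V E : Type} [Fintype V] [DecidableEq V] [Fintype E] [DecidableEq E]
    (G : MGraph V E) (hcubic : G.Cubic) (hG : G.Loopless) (C : Finset E) (hC : G.IsCircuit C) :
    -- `C` is dominating: no edge joins two vertices outside `C`
    ((∀ e, ¬ Outside G C e) → InFiveCover G C) ∧
    -- every vertex outside `C` has a neighbour on `C`
    ((∀ u, G.deg C u = 0 → ∃ e, u ∈ G.ends e ∧ ∃ v ∈ G.ends e, G.deg C v ≠ 0) → InFiveCover G C) ∧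
    -- `G - V(C)` is bipartite
    ((∃ side : V → Bool, ∀ e u v, G.ends e = s(u, v) → G.deg C u = 0 → G.deg C v = 0 →
      side u ≠ side v) → InFiveCover G C) ∧
    -- the exact condition: `G - V(C)` is 3-edge-colourable
    (InFiveCover G C ↔ Colourable G C) ∧
    -- and then `G` has a circuit double cover containing `C`
    (InFiveCover G C → ∃ F : Multiset (Finset E), G.IsCircuitDoubleCover F ∧ C ∈ F) := by
  have h := MGraph.five_cover_iff hcubic hG hC
  refine ⟨fun hd => ?_, fun hd => ?_, fun hb => ?_, h, fun hA => ?_⟩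
  · refine h.2 ⟨fun _ => 0, fun e f u he => absurd he (hd e)⟩
  · exact h.2 (MGraph.proper_of_dominating hcubic hG hd)
  · obtain ⟨side, hs⟩ := hb
    exact h.2 (MGraph.proper_of_bipartite hcubic hG hs)
  · obtain ⟨A, hA, hA'⟩ := hA
    exact MGraph.exists_doubleCover hC A hA hA'

end Pool.Agent.Results.MP_91c0b7_co.ColourableComplement
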