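import Pool.Agent.Lib_helper95.SCDCStrong

/-!
# Strong circuit double covers through circuits of length `n - 2`
-/

namespace Pool.Agent.Results.MP_91c0b7_co.StrongDoubleCover

open Pool.Agent.SCDC

/-- Let `G` be a 2-edge-connected cubic graph of order `n` (parallel edges allowed) and let `C` be a
circuit of `G` of length `n - 2`. Then `G` has a circuit double cover containing `C`. -/
theorem result {V E : Type} [Fintype V] [DecidableEq V] [Fintype E] [DecidableEq E]
    (G : MGraph V E) (hcubic : G.Cubic) (hconn : G.TwoEdgeConnected)
    (C : Finset E) (hC : G.IsCircuit C) (hlen : C.card + 2 = Fintype.card V) :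
    ∃ F : Multiset (Finset E), G.IsCircuitDoubleCover F ∧ C ∈ F :=
  MGraph.strong_cdc_two hcubic hconn hC hlen

end Pool.Agent.Results.MP_91c0b7_co.StrongDoubleCover
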